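import Pool.Agent.W544.PG.Defs3

/-!
# PG-AHT: from the transcendental part to the total cohomology
(the combinatorics of patterns is copied from `W565.K3.Ext`)
-/

open Module Finset Matrix

set_option linter.unusedSimpArgs false

namespace Pool.Agent.W409.PG

open Pool.Agent.W544.PG

noncomputable section

namespace Aht

variable {r s m : ℕ}

/-- the transcendental slots -/
def A (q : Fin m → Option (Fin s)) : Finset (Fin m) := univ.filter fun j => q j = none

theorem mem_A (q : Fin m → Option (Fin s)) (j : Fin m) : j ∈ A q ↔ q j = none := by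
  simp [A]

/-- enumeration of the transcendental slots -/
def ee (q : Fin m → Option (Fin s)) : Fin (A q).card ≃o (A q) := (A q).orderIsoOfFin rfl

/-- the multi-index with pattern `q` and transcendental part `K` -/
def mk (q : Fin m → Option (Fin s)) (K : Fin (A q).card → Fin r) : Fin m → Fin s ⊕ Fin r :=
  fun j => if h : q j = none then Sum.inr (K ((ee q).symm ⟨j, (mem_A q j).2 h⟩))
    else Sum.inl ((q j).get (Option.isSome_iff_ne_none.2 h))

theorem mk_some {q : Fin m → Option (Fin s)} (K : Fin (A q).card → Fin r) {j : Fin m} {a : Fin s}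
    (h : q j = some a) : mk q K j = Sum.inl a := by
  unfold mk
  rw [dif_neg (by rw [h]; simp)]
  congr 1
  simp [h]

theorem mk_none {q : Fin m → Option (Fin s)} (K : Fin (A q).card → Fin r) {j : Fin m}
    (h : q j = none) : mk q K j = Sum.inr (K ((ee q).symm ⟨j, (mem_A q j).2 h⟩)) := by
  unfold mk
  rw [dif_pos h]

theorem q_ee {q : Fin m → Option (Fin s)} (i : Fin (A q).card) : q (ee q i) = none :=
  (mem_A q _).1 (ee q i).2

theorem mk_ee {q : Fin m → Option (Fin s)} (K : Fin (A q).card → Fin r) (i : Fin (A q).card) :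
    mk q K (ee q i) = Sum.inr (K i) := by
  rw [mk_none K (q_ee i)]
  congr 2
  simp

/-- the pattern of a multi-index -/
def pat (I : Fin m → Fin s ⊕ Fin r) : Fin m → Option (Fin s) :=
  fun j => Sum.elim some (fun _ => none) (I j)

theorem pat_mk (q : Fin m → Option (Fin s)) (K : Fin (A q).card → Fin r) : pat (mk q K) = q := by
  funext j
  unfold pat
  cases h : q j with
  | none => rw [mk_none K h]; rfl
  | some a => rw [mk_some K h]; rfl

theorem exists_mk (I : Fin m → Fin s ⊕ Fin r) {q : Fin m → Option (Fin s)} (h : pat I = q) :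
    ∃ K, mk q K = I := by
  have hr : ∀ i : Fin (A q).card, ∃ b : Fin r, I (ee q i) = Sum.inr b := by
    intro i
    have h1 : pat I (ee q i) = none := by rw [h]; exact q_ee i
    cases h2 : I (ee q i) with
    | inl a => unfold pat at h1; rw [h2] at h1; simp at h1
    | inr b => exact ⟨b, rfl⟩
  choose K hK using hr
  refine ⟨K, ?_⟩
  funext j
  cases hj : q j with
  | some a =>
    rw [mk_some K hj]
    have h1 : pat I j = some a := by rw [h, hj]
    unfold pat at h1
    cases h2 : I j with
    | inl b => rw [h2] at h1; simp at h1; rw [h1]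
    | inr b => rw [h2] at h1; simp at h1
  | none =>
    rw [mk_none K hj, ← hK]
    simp

theorem mk_inj {q : Fin m → Option (Fin s)} {K K' : Fin (A q).card → Fin r}
    (h : mk q K = mk q K') : K = K' := by
  funext i
  have := congrFun h (ee q i)
  rw [mk_ee, mk_ee] at this
  exact Sum.inr_injective this

theorem bij : Function.Bijective
    (fun p : (Σ q : Fin m → Option (Fin s), (Fin (A q).card → Fin r)) => mk p.1 p.2) := by
  constructor
  · rintro ⟨q, K⟩ ⟨q', K'⟩ h
    simp only at h
    have h1 : q = q' := by
      rw [← pat_mk q K, h, pat_mk]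
    subst h1
    rw [mk_inj h]
  · intro I
    obtain ⟨K, hK⟩ := exists_mk I rfl
    exact ⟨⟨pat I, K⟩, hK⟩

theorem sum_mk {R : Type} [AddCommMonoid R] (f : (Fin m → Fin s ⊕ Fin r) → R) :
    ∑ I, f I = ∑ q : Fin m → Option (Fin s), ∑ K : Fin (A q).card → Fin r, f (mk q K) := by
  rw [← Fintype.sum_bijective _ (bij (r := r) (s := s) (m := m)) _ f (fun _ => rfl),
    Fintype.sum_sigma]

theorem prod_split {R : Type} [CommMonoid R] (q : Fin m → Option (Fin s)) (F : Fin m → R) :
    ∏ j, F j = (∏ j with q j ≠ none, F j) * ∏ i : Fin (A q).card, F (ee q i) := by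
  have h1 : ∏ i : Fin (A q).card, F (ee q i) = ∏ j with q j = none, F j := by
    rw [Fintype.prod_equiv (ee q).toEquiv (fun i => F (ee q i)) (fun j : A q => F j)
      (fun i => rfl)]
    exact Finset.prod_coe_sort (A q) F
  rw [h1, mul_comm]
  exact (Finset.prod_filter_mul_prod_filter_not univ (fun j => q j = none) F).symm

theorem sum_split {R : Type} [AddCommMonoid R] (q : Fin m → Option (Fin s)) (F : Fin m → R) :
    ∑ j, F j = (∑ j with q j ≠ none, F j) + ∑ i : Fin (A q).card, F (ee q i) := by
  have h1 : ∑ i : Fin (A q).card, F (ee q i) = ∑ j with q j = none, F j := by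
    rw [Fintype.sum_equiv (ee q).toEquiv (fun i => F (ee q i)) (fun j : A q => F j)
      (fun i => rfl)]
    exact Finset.sum_coe_sort (A q) F
  rw [h1, add_comm]
  exact (Finset.sum_filter_add_sum_filter_not univ (fun j => q j = none) F).symm


/-- the test vectors -/
def wv (q : Fin m → Option (Fin s)) (v : Fin (A q).card → Fin r → ℂ) :
    Fin m → Fin s ⊕ Fin r → ℂ :=
  fun j => if h : q j = none then Sum.elim (fun _ => 0) (v ((ee q).symm ⟨j, (mem_A q j).2 h⟩))
    else Pi.single (Sum.inl ((q j).get (Option.isSome_iff_ne_none.2 h))) 1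

/-- the test weights -/
def wb (q : Fin m → Option (Fin s)) (a : Fin (A q).card → ℤ) : Fin m → ℤ :=
  fun j => if h : q j = none then a ((ee q).symm ⟨j, (mem_A q j).2 h⟩) else 0

theorem wv_some {q : Fin m → Option (Fin s)} (v : Fin (A q).card → Fin r → ℂ) {j : Fin m}
    {a : Fin s} (h : q j = some a) : wv q v j = Pi.single (Sum.inl a) 1 := by
  unfold wv
  rw [dif_neg (by rw [h]; simp)]
  congr 2
  simp [h]

theorem wv_none {q : Fin m → Option (Fin s)} (v : Fin (A q).card → Fin r → ℂ) {j : Fin m}
    (h : q j = none) :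
    wv q v j = Sum.elim (fun _ => 0) (v ((ee q).symm ⟨j, (mem_A q j).2 h⟩)) := by
  unfold wv
  rw [dif_pos h]

theorem wv_ee {q : Fin m → Option (Fin s)} (v : Fin (A q).card → Fin r → ℂ)
    (i : Fin (A q).card) : wv q v (ee q i) = Sum.elim (fun _ => 0) (v i) := by
  rw [wv_none v (q_ee i)]
  congr 2
  simp

theorem wb_ee {q : Fin m → Option (Fin s)} (a : Fin (A q).card → ℤ)
    (i : Fin (A q).card) : wb q a (ee q i) = a i := by
  unfold wb
  rw [dif_pos (q_ee i)]
  congr 1
  simp

theorem wb_some {q : Fin m → Option (Fin s)} (a : Fin (A q).card → ℤ) {j : Fin m}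
    (h : q j ≠ none) : wb q a j = 0 := by
  unfold wb
  rw [dif_neg h]

theorem xS_elim (T : HS r) (v : Fin s ⊕ Fin r → ℂ) :
    T.xS s *ᵥ v = Sum.elim (fun _ => 0) (T.x *ᵥ fun b => v (Sum.inr b)) := by
  unfold HS.xS
  rw [Matrix.fromBlocks_mulVec]
  funext j
  cases j with
  | inl a => simp
  | inr b =>
    simp only [Sum.elim_inr, Matrix.zero_mulVec, zero_add]
    rfl

theorem slice (T : HS r) (t : (Fin m → Fin s ⊕ Fin r) → ℚ) (ht : T.IsHodgeS t)
    (q : Fin m → Option (Fin s)) : T.IsHodge (fun K => t (mk q K)) := by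
  intro v a hv ha
  have h1 : ∀ j, T.xS s *ᵥ wv q v j = (wb q a j : ℂ) • wv q v j := by
    intro j
    rw [xS_elim]
    cases hj : q j with
    | some b =>
      rw [wv_some v hj, wb_some a (by rw [hj]; simp)]
      funext l
      cases l with
      | inl c => simp
      | inr c =>
        simp only [Sum.elim_inr, Int.cast_zero, zero_smul, Pi.zero_apply]
        have : (fun b_1 : Fin r => (Pi.single (Sum.inl b) (1 : ℂ) : Fin s ⊕ Fin r → ℂ)
            (Sum.inr b_1)) = 0 := by
          funext l
          simp
        rw [this, Matrix.mulVec_zero]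
        rfl
    | none =>
      obtain ⟨i, rfl⟩ : ∃ i, (ee q i : Fin m) = j := ⟨(ee q).symm ⟨j, (mem_A q j).2 hj⟩, by simp⟩
      rw [wv_ee, wb_ee]
      funext l
      cases l with
      | inl c => simp
      | inr c =>
        have := congrFun (hv i) c
        simpa using this
  have h2 : ∑ j, wb q a j ≠ 0 := by
    rw [sum_split q, Finset.sum_eq_zero (fun j hj => wb_some a (Finset.mem_filter.1 hj).2),
      zero_add]
    simp only [wb_ee]
    exact ha
  have h3 := ht (wv q v) (wb q a) h1 h2
  rw [← h3]
  unfold ev evG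
  rw [sum_mk, Finset.sum_eq_single q]
  · refine Finset.sum_congr rfl fun K _ => ?_
    congr 1
    symm
    rw [prod_split q, Finset.prod_eq_one, one_mul]
    · refine Finset.prod_congr rfl fun i _ => ?_
      rw [mk_ee, wv_ee]
      rfl
    · intro j hj
      rw [Finset.mem_filter] at hj
      obtain ⟨b, hb⟩ := Option.ne_none_iff_exists'.1 hj.2
      rw [mk_some K hb, wv_some v hb]
      simp
  · intro q' _ hq'
    refine Finset.sum_eq_zero fun K _ => ?_
    have : ∃ j, q' j ≠ q j := by
      by_contra hcon
      push Not at hcon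
      exact hq' (funext hcon)
    obtain ⟨j, hj⟩ := this
    rw [Finset.prod_eq_zero (Finset.mem_univ j), mul_zero]
    cases h1 : q' j with
    | some b =>
      rw [mk_some K h1]
      cases h2 : q j with
      | some c =>
        rw [wv_some v h2]
        have hab : b ≠ c := by
          intro hab
          apply hj
          rw [h1, h2, hab]
        simp [hab]
      | none =>
        rw [wv_none v h2]
        rfl
    | none =>
      rw [mk_none K h1]
      cases h2 : q j with
      | some c =>
        rw [wv_some v h2]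
        simp
      | none =>
        exact absurd (h1.trans h2.symm) hj
  · intro h0
    exact absurd (Finset.mem_univ _) h0

/-- the evaluation -/
theorem ev_mk (t : (Fin m → Fin s ⊕ Fin r) → ℚ) (v : Fin m → Fin s ⊕ Fin r → ℂ) :
    evG t v = ∑ q : Fin m → Option (Fin s),
      (∏ j with q j ≠ none, Sum.elim (fun a => v j (Sum.inl a)) (fun _ : Unit => 0)
        ((q j).elim (Sum.inr ()) Sum.inl)) *
      ev (fun K => t (mk q K)) (fun i => fun b => v (ee q i) (Sum.inr b)) := by
  unfold ev evG
  rw [sum_mk]
  refine Finset.sum_congr rfl fun q _ => ?_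
  rw [Finset.mul_sum]
  refine Finset.sum_congr rfl fun K _ => ?_
  rw [prod_split q]
  have h1 : ∏ j with q j ≠ none, v j (mk q K j) =
      ∏ j with q j ≠ none, Sum.elim (fun a => v j (Sum.inl a)) (fun _ : Unit => 0)
        ((q j).elim (Sum.inr ()) Sum.inl) := by
    refine Finset.prod_congr rfl fun j hj => ?_
    rw [Finset.mem_filter] at hj
    obtain ⟨a, ha⟩ := Option.ne_none_iff_exists'.1 hj.2
    rw [mk_some K ha, ha]
    rfl
  have h2 : ∏ i, v (ee q i) (mk q K (ee q i)) = ∏ i, v (ee q i) (Sum.inr (K i)) :=
    Finset.prod_congr rfl fun i _ => by rw [mk_ee]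
  rw [h1, h2]
  ring

theorem unslice (T : HS r) (t : (Fin m → Fin s ⊕ Fin r) → ℚ)
    (ht : ∀ q : Fin m → Option (Fin s), T.IsHodge (fun K => t (mk q K))) : T.IsHodgeS t := by
  intro v a hv ha
  have hl : ∀ j c, (a j : ℂ) * v j (Sum.inl c) = 0 := by
    intro j c
    have h := congrFun (hv j) (Sum.inl c)
    rw [xS_elim] at h
    simpa using h.symm
  have hr : ∀ j, T.x *ᵥ (fun b => v j (Sum.inr b)) = (a j : ℂ) • (fun b => v j (Sum.inr b)) := by
    intro j
    funext c
    have h := congrFun (hv j) (Sum.inr c)
    rw [xS_elim] at h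
    simpa using h
  rw [ev_mk]
  refine Finset.sum_eq_zero fun q _ => ?_
  by_cases h0 : ∃ j, q j ≠ none ∧ a j ≠ 0
  · obtain ⟨j, hj, hpj⟩ := h0
    rw [Finset.prod_eq_zero (Finset.mem_filter.2 ⟨Finset.mem_univ j, hj⟩), zero_mul]
    obtain ⟨b, hb⟩ := Option.ne_none_iff_exists'.1 hj
    rw [hb]
    simp only [Option.elim_some, Sum.elim_inl]
    rcases mul_eq_zero.1 (hl j b) with h | h
    · exact absurd (Int.cast_eq_zero.1 h) hpj
    · exact h
  · push Not at h0
    have h1 : ∑ i : Fin (A q).card, a (ee q i) ≠ 0 := by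
      rw [sum_split q, Finset.sum_eq_zero (fun j hj => h0 j (Finset.mem_filter.1 hj).2),
        zero_add] at ha
      exact ha
    rw [ht q (fun i => fun b => v (ee q i) (Sum.inr b)) (fun i => a (ee q i))
      (fun i => hr _) h1, mul_zero]

end Aht

open Aht in
theorem aht : S_aht := by
  intro n s m T T' R _ _ P H t ht
  have h1 : ∀ q : Fin m → Option (Fin s), ∃ t' : (Fin (A q).card → Fin n) → ℚ,
      T'.IsHodge t' ∧ pull P (fun J => (t' J : R)) = fun J => ((t (mk q J) : ℚ) : R) :=
    fun q => H _ _ (slice T t ht q)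
  choose u hu1 hu2 using h1
  let t' : (Fin m → Fin s ⊕ Fin n) → ℚ := fun J =>
    u (pat J) (exists_mk J rfl).choose
  have ht' : ∀ q (K : Fin (A q).card → Fin n), t' (mk q K) = u q K := by
    intro q K
    have h2 : ∀ (q' : Fin m → Option (Fin s)) (h : q = q') (K' : Fin (A q').card → Fin n),
        mk q' K' = mk q K → u q' K' = u q K := by
      intro q' h K' h3
      subst h
      rw [mk_inj h3]
    exact h2 _ (pat_mk q K).symm _ (exists_mk (mk q K) rfl).choose_spec
  refine ⟨t', ?_, ?_⟩
  · refine unslice T' t' fun q => ?_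
    have h3 : (fun K => t' (mk q K)) = u q := funext fun K => ht' q K
    rw [h3]
    exact hu1 q
  · funext J
    obtain ⟨L, hL⟩ := exists_mk J rfl
    generalize pat J = q at L hL
    subst hL
    unfold pull
    rw [Aht.sum_mk, Finset.sum_eq_single q]
    · have h4 := congrFun (hu2 q) L
      simp only [pull] at h4
      rw [← h4]
      refine Finset.sum_congr rfl fun K _ => ?_
      have h6 : ((t' (Aht.mk q K) : ℚ) : R) = ((u q K : ℚ) : R) := by rw [ht']
      refine congrArg₂ (· * ·) ?_ h6
      rw [prod_split q, Finset.prod_eq_one, one_mul]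
      · refine Finset.prod_congr rfl fun i _ => ?_
        rw [mk_ee, mk_ee]
        rfl
      · intro j hj
        rw [Finset.mem_filter] at hj
        obtain ⟨b, hb⟩ := Option.ne_none_iff_exists'.1 hj.2
        rw [mk_some K hb, mk_some L hb]
        simp
    · intro q' _ hq'
      refine Finset.sum_eq_zero fun K _ => ?_
      have : ∃ j, q' j ≠ q j := by
        by_contra hcon
        push Not at hcon
        exact hq' (funext hcon)
      obtain ⟨j, hj⟩ := this
      rw [Finset.prod_eq_zero (Finset.mem_univ j), zero_mul]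
      cases h1 : q' j with
      | some b =>
        rw [mk_some K h1]
        cases h2 : q j with
        | some c =>
          rw [mk_some L h2]
          have hab : b ≠ c := by
            intro hab
            apply hj
            rw [h1, h2, hab]
          simp [hab]
        | none =>
          rw [mk_none L h2]
          simp
      | none =>
        rw [mk_none K h1]
        cases h2 : q j with
        | some c =>
          rw [mk_some L h2]
          simp
        | none =>
          exact absurd (h1.trans h2.symm) hj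
    · intro h0
      exact absurd (Finset.mem_univ _) h0

end

end Pool.Agent.W409.PG
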