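import Pool.Agent.W544.PG.Defs

open Matrix Finset Module

namespace Pool.Agent.W409.PG

open Pool.Agent.W544.PG

/-- Blocks of a linear map of matrices. -/
noncomputable def blk {ι : Type} [Fintype ι] [DecidableEq ι]
    (E : Matrix ι ι ℂ →ₗ[ℂ] Matrix ι ι ℂ) (i j : ι) : Matrix ι ι ℂ :=
  Matrix.of fun a b => E (Matrix.single b j 1) a i

theorem map_apply {ι : Type} [Fintype ι] [DecidableEq ι]
    (E : Matrix ι ι ℂ →ₗ[ℂ] Matrix ι ι ℂ) (X : Matrix ι ι ℂ) (a i : ι) :
    E X a i = ∑ b, ∑ j, X b j * E (Matrix.single b j 1) a i := by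
  conv_lhs => rw [Matrix.matrix_eq_sum_single X]
  rw [map_sum, Matrix.sum_apply]
  refine Finset.sum_congr rfl fun b _ => ?_
  rw [map_sum, Matrix.sum_apply]
  refine Finset.sum_congr rfl fun j _ => ?_
  have h : Matrix.single b j (X b j) = X b j • Matrix.single b j (1 : ℂ) := by
    rw [Matrix.smul_single, smul_eq_mul, mul_one]
  rw [h, map_smul, Matrix.smul_apply, smul_eq_mul]

theorem dc : S_exp → S_dc := by
  intro hexp ι _ _ S hS X0 hX0
  obtain ⟨E, hES, hEid, -, hEl, -⟩ := hexp ι S hS
  have hcom : ∀ i j, blk E i j ∈ com (S : Set (Matrix ι ι ℂ)) := by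
    intro i j s hs
    ext a b
    have h1 := congrFun (congrFun (hEl s hs (Matrix.single b j 1)) a) i
    rw [map_apply E (s * Matrix.single b j 1) a i] at h1
    rw [Matrix.mul_apply, Matrix.mul_apply]
    rw [Matrix.mul_apply] at h1
    simp only [blk, Matrix.of_apply]
    rw [← h1]
    refine Finset.sum_congr rfl fun k _ => ?_
    rw [Finset.sum_eq_single j]
    · rw [Matrix.mul_single_apply_same, mul_one, mul_comm]
    · intro l _ hl
      rw [Matrix.mul_single_apply_of_ne _ _ _ _ _ hl, zero_mul]
    · intro h; exact absurd (Finset.mem_univ _) h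
  have h2 : E X0 = X0 := by
    ext a i
    have h3 : E X0 a i = ∑ j, (X0 * blk E i j) a j := by
      rw [map_apply E X0 a i, Finset.sum_comm]
      refine Finset.sum_congr rfl fun j _ => ?_
      have h4 : X0 * blk E i j = blk E i j * X0 := hX0 _ (hcom i j)
      rw [h4, Matrix.mul_apply]
      refine Finset.sum_congr rfl fun b _ => ?_
      simp only [blk, Matrix.of_apply]
      rw [mul_comm]
    have h5 : ∀ b, ∑ j, blk E i j b j = (1 : Matrix ι ι ℂ) b i := by
      intro b
      have h6 := congrFun (congrFun (hEid 1 hS.1) b) i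
      rw [map_apply E 1 b i] at h6
      rw [← h6]
      refine Finset.sum_congr rfl fun j _ => ?_
      rw [Finset.sum_eq_single j]
      · simp [blk]
      · intro l _ hl
        rw [Matrix.one_apply_ne (Ne.symm hl), zero_mul]
      · intro h; exact absurd (Finset.mem_univ _) h
    rw [h3]
    simp only [Matrix.mul_apply]
    rw [Finset.sum_comm]
    simp only [← Finset.mul_sum]
    rw [Finset.sum_congr rfl fun b _ => by rw [h5 b]]
    simp [Matrix.one_apply]
  rw [← h2]
  exact hES X0

end Pool.Agent.W409.PG
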