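import Pool.Agent.W619.Y.Stm2
import Pool.Agent.W391.PG.REGLOG

/-! The logarithmic estimate at a place, with additional coordinates. -/

set_option autoImplicit false
set_option linter.overlappingInstances false
set_option linter.unusedSectionVars false

universe u v

open FF IntermediateField Pool.Agent.W619.PQ Pool.Agent.W619.PL Pool.Agent.W619.TW
  Pool.Agent.W603.LV Pool.Agent.W619.Y Pool.Agent.W391.PG.REGLOG

namespace Pool.Agent.W409.PG.REGLOG2

theorem det_block {L : Type u} [Field L] {d n : ℕ} (Z : Matrix (Fin d) (Fin d) L) (c : Fin n → L)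
    (X M : Matrix (Fin (d + n)) (Fin (d + n)) L)
    (h1 : ∀ l j, X (Fin.castAdd n l) j = ∑ s, Z l s * M (Fin.castAdd n s) j)
    (h2 : ∀ i j, X (Fin.natAdd d i) j = c i * M (Fin.natAdd d i) j) :
    X.det = Z.det * (∏ i, c i) * M.det := by
  classical
  let e : Fin d ⊕ Fin n ≃ Fin (d + n) := finSumFinEquiv
  let B : Matrix (Fin (d + n)) (Fin (d + n)) L :=
    (Matrix.fromBlocks Z 0 0 (Matrix.diagonal c)).submatrix e.symm e.symm
  have hB : B.det = Z.det * ∏ i, c i := by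
    rw [Matrix.det_submatrix_equiv_self, Matrix.det_fromBlocks_zero₂₁, Matrix.det_diagonal]
  have hX : X = B * M := by
    ext i j
    rw [Matrix.mul_apply, Fin.sum_univ_add]
    refine Fin.addCases (fun l => ?_) (fun l => ?_) i
    · rw [h1]
      have e1 : ∀ s, B (Fin.castAdd n l) (Fin.castAdd n s) = Z l s := by
        intro s
        simp [B, e]
      have e2 : ∀ s, B (Fin.castAdd n l) (Fin.natAdd d s) = 0 := by
        intro s
        simp [B, e]
      simp only [e1, e2, zero_mul, Finset.sum_const_zero, add_zero]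
    · rw [h2]
      have e1 : ∀ s, B (Fin.natAdd d l) (Fin.castAdd n s) = 0 := by
        intro s
        simp [B, e]
      have e2 : ∀ s, B (Fin.natAdd d l) (Fin.natAdd d s) = if l = s then c l else 0 := by
        intro s
        simp [B, e, Matrix.diagonal_apply]
      simp only [e1, e2, zero_mul, Finset.sum_const_zero, zero_add, ite_mul]
      rw [Finset.sum_ite_eq]
      simp
  rw [hX, Matrix.det_mul, hB]

open scoped Classical in
theorem main (h1 : S_DET2.{u, v}) (h2 : S_ORB) (h3 : S_EQV.{u}) : S_REGLOG2.{u, v} := by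
  intro k L _ _ _ _ _ d n F _ G _ σ hF N m e hN hfree w h ζ he hζ hchar he1 y a hya x b hxQ hxt
    hxσ hbQ hb0 hgood D hDlog hDh
  obtain ⟨Z, y0, hy0, hyD, hyZ⟩ := hya
  have he0 : 0 < e := he ▸ orderOf_pos h
  have hζ0 : ζ ≠ 0 := hζ.ne_zero he0.ne'
  have hc : IsChar w (h : L ≃ₐ[k] L) ζ := hchar
  have hordr : ∀ (r : ℕ) (z : L), w.ord (((h ^ r : G) : L ≃ₐ[k] L) z) = w.ord z := fun r z =>
    (hc.pow hζ0 r).ord_eq (pow_ne_zero _ hζ0) z
  have hord : ∀ z : L, w.ord ((h : L ≃ₐ[k] L) z) = w.ord z := fun z => hc.ord_eq hζ0 z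
  let τ : Equiv.Perm (Fin n) := σ h
  have hτr : ∀ (r : ℕ) i, σ (h ^ r) i = (τ ^ r) i := fun r i => by rw [map_pow]
  let U : Set (Fin n) := {i | ∃ z ∈ F i, w.ord z ≠ 0}
  -- `U` is stable
  have hUg0 : ∀ (r : ℕ) i, i ∈ U → σ (h ^ r) i ∈ U := by
    rintro r i ⟨z, hz, hz0⟩
    exact ⟨((h ^ r : G) : L ≃ₐ[k] L) z, hF _ i z hz, by rwa [hordr]⟩
  have hUg : ∀ (r : ℕ) i, i ∈ U ↔ σ (h ^ r) i ∈ U := by
    intro r i
    refine ⟨hUg0 r i, ?_⟩
    rintro ⟨z, hz, hz0⟩
    refine ⟨((h ^ r : G)⁻¹ : L ≃ₐ[k] L) z, ?_, ?_⟩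
    · have h4 := hF ((h ^ r : G)⁻¹) _ z hz
      rw [← Equiv.Perm.mul_apply, ← map_mul, inv_mul_cancel, map_one] at h4
      exact h4
    · have h4 := hordr r (((h ^ r : G)⁻¹ : L ≃ₐ[k] L) z)
      have h5 : ((h ^ r : G) : L ≃ₐ[k] L) (((h ^ r : G)⁻¹ : L ≃ₐ[k] L) z) = z := by
        rw [← AlgEquiv.mul_apply, mul_inv_cancel]; rfl
      rw [h5] at h4
      rwa [← h4]
  have hU : ∀ i, i ∈ U ↔ τ i ∈ U := by
    intro i
    have := hUg 1 i
    rwa [pow_one] at this
  -- the uniformizers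
  let Γ := Subgroup.zpowers h
  have hΓ : ∀ g : Γ, ∃ r : ℕ, (g : G) = h ^ r := by
    intro g
    have h4 := mem_powers_iff_mem_zpowers.2 g.2
    obtain ⟨r, hr⟩ := h4
    exact ⟨r, hr.symm⟩
  obtain ⟨u, hu1, hu2⟩ := h3 Γ n (σ.comp Γ.subtype) L
    (fun i a => a ∈ Quo G σ F i ∧ (i ∈ U → IsUnif w (Quo G σ F i) a) ∧ (i ∉ U → a = 1))
    (by
      rintro g i a ⟨ha, ha1, ha2⟩
      obtain ⟨r, hr⟩ := hΓ g
      have e1 : (σ.comp Γ.subtype) g i = σ (h ^ r) i := by
        rw [MonoidHom.comp_apply, Subgroup.coe_subtype, hr]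
      have e2 : g • a = ((h ^ r : G) : L ≃ₐ[k] L) a := by
        have : g • a = ((g : G) : L ≃ₐ[k] L) a := rfl
        rw [this, hr]
      rw [e1, e2]
      refine ⟨quo_smul G σ F hF _ i a ha, fun hi => ?_, fun hi => ?_⟩
      · obtain ⟨h4, h5⟩ := ha1 ((hUg r i).2 hi)
        refine ⟨by rwa [hordr], fun z hz hz0 => ?_⟩
        rw [hordr]
        have h6 := quo_smul G σ F hF ((h ^ r : G)⁻¹) _ z hz
        rw [← Equiv.Perm.mul_apply, ← map_mul, inv_mul_cancel, map_one] at h6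
        have h7 := h5 _ h6 ((map_ne_zero_iff _ (AlgEquiv.injective _)).2 hz0)
        have h8 := hordr r (((((h ^ r : G)⁻¹ : G)) : L ≃ₐ[k] L) z)
        have h9 : ((h ^ r : G) : L ≃ₐ[k] L) (((((h ^ r : G)⁻¹ : G)) : L ≃ₐ[k] L) z) = z := by
          rw [← AlgEquiv.mul_apply, ← Subgroup.coe_mul, mul_inv_cancel]; rfl
        rw [h9] at h8
        rwa [h8]
      · rw [ha2 (fun h4 => hi ((hUg r i).1 h4)), map_one])
    (by
      rintro i a ⟨ha, -, -⟩ g hg
      exact fix_of_quo G σ F (g : G) i a ha hg)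
    (by
      intro i
      by_cases hi : i ∈ U
      · obtain ⟨a, ha, ha'⟩ := exists_unif w _ (exists_quo G σ F hF i w hi)
        exact ⟨a, ha, fun _ => ha', fun h4 => absurd hi h4⟩
      · exact ⟨1, one_mem _, fun h4 => absurd h4 hi, fun _ => rfl⟩)
  have huh : ∀ i, (h : L ≃ₐ[k] L) (u i) = u (τ i) := fun i =>
    hu2 ⟨h, Subgroup.mem_zpowers h⟩ i
  have huU : ∀ i ∈ U, IsUnif w (Quo G σ F i) (u i) := fun i hi => (hu1 i).2.1 hi
  have hu01 : ∀ i, i ∉ U → u i = 1 := fun i hi => (hu1 i).2.2 hi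
  have hu0 : ∀ i, u i ≠ 0 := by
    intro i h4
    by_cases hi : i ∈ U
    · have h5 := (huU i hi).1
      rw [h4, w.ord_zero] at h5
      omega
    · rw [hu01 i hi] at h4
      exact one_ne_zero h4
  have hx0 : ∀ i, x i ≠ 0 := fun i h4 => hxt i (by rw [h4]; exact isAlgebraic_zero)
  have hquo : ∀ i, ∀ z ∈ Quo G σ F i, z ∈ F i := fun i z hz => (IntermediateField.mem_inf.1 hz).1
  have hnU : ∀ i, i ∉ U → ∀ z ∈ F i, w.ord z = 0 := by
    intro i hi z hz
    by_contra hcon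
    exact hi ⟨z, hz, hcon⟩
  -- the coordinates
  let z : Fin n → L := fun i => if i ∈ U then u i else x i
  have hzU : ∀ i ∈ U, z i = u i := fun i hi => if_pos hi
  have hznU : ∀ i, i ∉ U → z i = x i := fun i hi => if_neg hi
  have hzh : ∀ i, (h : L ≃ₐ[k] L) (z i) = z (τ i) := by
    intro i
    by_cases hi : i ∈ U
    · rw [hzU i hi, hzU _ ((hU i).1 hi), huh]
    · rw [hznU i hi, hznU _ (fun h4 => hi ((hU i).2 h4)), hxσ]
  have hρ : ∀ i, ∃ ρ : L, (∀ δ : Derivation k L L, δ (x i) = ρ * δ (z i)) ∧ (i ∉ U → ρ = 1) := by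
    intro i
    by_cases hi : i ∈ U
    · have h4 : Transcendental k (⟨u i, hquo i _ (hu1 i).1⟩ : F i) := by
        have h5 : Transcendental k (u i) :=
          w.transcendental_of_ord_ne (by have := (huU i hi).1; omega)
        intro h6
        exact h5 (h6.algebraMap (A := L))
      obtain ⟨r, -, hr⟩ := ratio' (K := L) h4 (⟨x i, hquo i _ (hxQ i)⟩ : F i)
      refine ⟨r, fun δ => ?_, fun h5 => absurd hi h5⟩
      rw [hzU i hi]
      exact hr δ
    · exact ⟨1, fun δ => by rw [hznU i hi, one_mul], fun _ => rfl⟩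
  choose ρ hρ1 hρ2 using hρ
  let M : Matrix (Fin (d + n)) (Fin (d + n)) L := Matrix.of fun i j =>
    (Fin.append (fun c => D j (y0 c)) (fun i => D j (z i) / u i) : Fin (d + n) → L) i
  have hM1 : ∀ c j, M (Fin.castAdd n c) j = D j (y0 c) := by
    intro c j
    simp only [M, Matrix.of_apply, Fin.append_left]
  have hM2 : ∀ i j, M (Fin.natAdd d i) j = D j (z i) / u i := by
    intro i j
    simp only [M, Matrix.of_apply, Fin.append_right]
  have hdet : (Matrix.of fun i j => D j ((Fin.append y x : Fin (d + n) → L) i)).det =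
      Z.det * (∏ i, ρ i * u i) * M.det := by
    apply det_block
    · intro l j
      rw [Matrix.of_apply, Fin.append_left, hyD]
      refine Finset.sum_congr rfl fun s _ => ?_
      rw [hM1]
    · intro i j
      rw [Matrix.of_apply, Fin.append_right, hM2, hρ1 i (D j), mul_assoc,
        mul_div_cancel₀ _ (hu0 i)]
  have hM : ∀ i j, Ge w 0 (M i j) := by
    intro i j
    refine Fin.addCases (fun c => ?_) (fun i => ?_) i
    · rw [hM1]
      by_cases h4 : y0 c = 0
      · left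
        rw [h4, map_zero]
      · have h5 : Ge w 0 (D j (y0 c) / y0 c) := hDlog j (y0 c)
        have h6 := h5.mul (hy0 c : Ge w 0 (y0 c))
        rwa [div_mul_cancel₀ _ h4, add_zero] at h6
    · rw [hM2]
      by_cases hi : i ∈ U
      · rw [hzU i hi]
        exact hDlog j (u i)
      · rw [hznU i hi, hu01 i hi, div_one]
        have h4 : Ge w 0 (D j (x i) / x i) := hDlog j (x i)
        have h5 : Ge w 0 (x i) := Or.inr (hnU i hi _ (hquo i _ (hxQ i))).ge
        have h6 := h4.mul h5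
        rwa [div_mul_cancel₀ _ (hx0 i), add_zero] at h6
  have hMh : ∀ i j, (h : L ≃ₐ[k] L) (M (Fin.natAdd d i) j) = M (Fin.natAdd d (τ i)) j := by
    intro i j
    rw [hM2, hM2, map_div₀, hDh, hzh, huh]
  -- the orders
  let β : Fin n → ℤ := fun i => w.ord (b i * (ρ i * u i) ^ m)
  have hβU : ∀ i ∈ U, (m : ℤ) * w.ord (u i) ≤ N * β i ∧ (m : ℤ) ≤ β i := by
    intro i hi
    refine hgood i w (u i) (hu1 i).1 (huU i hi).1 (huU i hi).2 (ρ i) fun δ => ?_
    rw [← hzU i hi]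
    exact hρ1 i δ
  have hβn : ∀ i, i ∉ U → β i = 0 := by
    intro i hi
    simp only [β]
    rw [hρ2 i hi, hu01 i hi, one_mul, one_pow, mul_one]
    exact hnU i hi _ (hquo i _ (hbQ i))
  have hβ0 : ∀ i, 0 ≤ β i := by
    intro i
    by_cases hi : i ∈ U
    · have := (hβU i hi).2
      omega
    · rw [hβn i hi]
  have hprod : a * (∏ i, b i) *
      (Matrix.of fun i j => D j ((Fin.append y x : Fin (d + n) → L) i)).det ^ m =
      ((a * Z.det ^ m) * ∏ i, b i * (ρ i * u i) ^ m) * M.det ^ m := by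
    have hp : (∏ i, b i * (ρ i * u i) ^ m) = (∏ i, b i) * (∏ i, ρ i * u i) ^ m := by
      rw [Finset.prod_mul_distrib (f := b), Finset.prod_pow]
    rw [hdet, hp]
    ring
  rw [hprod]
  have hGβ' : Ge w (∑ i, β i) (∏ i, b i * (ρ i * u i) ^ m) :=
    Ge.prod _ _ _ fun i _ => Or.inr le_rfl
  have hGβ : Ge w (∑ i, β i) ((a * Z.det ^ m) * ∏ i, b i * (ρ i * u i) ^ m) := by
    have := hyZ.mul hGβ'
    rwa [zero_add] at this
  by_cases hm : m = 0
  · subst hm
    have h9 : ∀ X : L, X * M.det ^ 0 = X := fun X => by rw [pow_zero, mul_one]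
    rw [h9]
    refine hGβ.mono ?_
    rw [Nat.cast_zero, zero_mul]
    exact Finset.sum_nonneg fun i _ => hβ0 i
  by_cases hM0 : M.det = 0
  · left
    rw [hM0, zero_pow hm, mul_zero]
  have hd0 : 0 ≤ w.ord M.det := (ge_det w M hM).resolve_left hM0
  have hGM : Ge w (w.ord M.det) M.det := Or.inr le_rfl
  refine (hGβ.mul (hGM.pow m)).mono ?_
  by_cases he2 : e = 1
  · obtain ⟨i, hi⟩ := he1 he2
    have h4 := (hβU i hi).2
    have h5 : β i ≤ ∑ i, β i := Finset.single_le_sum (fun i _ => hβ0 i) (Finset.mem_univ i)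
    have h6 : 0 ≤ (m : ℤ) * w.ord M.det := by positivity
    rw [he2, Nat.cast_one, mul_one]
    linarith
  -- the general case
  have hh1 : h ≠ 1 := by
    rintro rfl
    rw [orderOf_one] at he
    exact he2 he.symm
  have hfix1 : ∀ i, i ∉ U → ∀ r : ℕ, σ (h ^ r) i = i → ∀ y ∈ F i,
      ((h ^ r : G) : L ≃ₐ[k] L) y = y := by
    intro i hi r hr y hy
    by_contra hcon
    have hy0 : y ≠ 0 := by
      rintro rfl
      exact hcon (map_zero _)
    have h4 := hc.pow hζ0 r y hy0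
    rw [hnU i hi y hy, zpow_zero, map_one, one_mul, zero_add] at h4
    have h5 : ((h ^ r : G) : L ≃ₐ[k] L) y ∈ F i := by
      have := hF (h ^ r) i y hy
      rwa [hr] at this
    have h6 := h4.resolve_left (sub_ne_zero.2 hcon)
    have h7 := hnU i hi _ (sub_mem h5 hy)
    have h8 : w.ord (((h : L ≃ₐ[k] L) ^ r) y - y) = w.ord (((h ^ r : G) : L ≃ₐ[k] L) y - y) := rfl
    omega
  have hhas : HasFix G σ F h := by
    intro i r hr
    by_cases hi : i ∈ U
    · right
      obtain ⟨y, hy, hy0⟩ := hi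
      obtain ⟨a, q, hq⟩ := exists_over (K := F i) w ⟨⟨y, hy⟩, hy0⟩
      refine ⟨q, fun y1 y2 h4 => ?_⟩
      have h5 : (a : ℤ) * q.ord y2 = a * q.ord y1 := by
        rw [← hq.2, ← hq.2]
        change w.ord (y2 : L) = w.ord (y1 : L)
        rw [← h4, hordr]
      exact mul_left_cancel₀ (by have := hq.1; omega) h5
    · exact Or.inl (hfix1 i hi r hr)
  have hf := hfree h hh1 hhas
  have hA := h2 n N e m τ U (fun i => w.ord (u i)) β hU
    (fun i => by
      change w.ord (u (τ i)) = w.ord (u i)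
      rw [← huh, hord]) hβ0 (fun i hi => (hβU i hi).1)
    (fun i hi r hr h4 => hc.le he0 hζ hr (huU i hi).1
      (fix_of_quo G σ F (h ^ r) i (u i) (hu1 i).1 (by rw [hτr, h4])))
  have hB := h1 k L d n e w h ζ τ M he0 hζ (fun a y hy hhy => hc.dvd he0 hζ a y hy hhy)
    (by
      change (σ h) ^ e = 1
      rw [← map_pow, ← he, pow_orderOf_eq_one, map_one]) hMh hM hM0
  have hcount : {i : Fin n | ∀ r : ℕ, i ≤ (τ ^ r) i}.ncard ≤
      {i : Fin n | i ∈ U ∧ ∀ r : ℕ, i ≤ (τ ^ r) i}.ncard + fixDim G σ F h := by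
    refine le_trans (Set.ncard_le_ncard ?_ (Set.toFinite _)) (Set.ncard_union_le _ _)
    intro i hi
    by_cases h4 : i ∈ U
    · exact Or.inl ⟨h4, hi⟩
    · exact Or.inr ⟨fun r => by rw [hτr]; exact hi r, hfix1 i h4⟩
  set cA := {i : Fin n | i ∈ U ∧ ∀ r : ℕ, i ≤ (τ ^ r) i}.ncard
  set cc := {i : Fin n | ∀ r : ℕ, i ≤ (τ ^ r) i}.ncard
  have hNc : (N : ℤ) ≤ n - cc + cA := by omega
  set S := ∑ i, β i
  set δ := w.ord M.det
  have hN0 : (0 : ℤ) < N := by omega
  have hm0 : (0 : ℤ) ≤ m := by omega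
  have he3 : (0 : ℤ) ≤ e := by omega
  have e1 : (m : ℤ) * (e * (n - cc)) ≤ m * (2 * δ) := mul_le_mul_of_nonneg_left hB hm0
  have e2 : (m : ℤ) * (2 * δ) ≤ m * (N * δ) :=
    mul_le_mul_of_nonneg_left (mul_le_mul_of_nonneg_right (by omega) hd0) hm0
  have e3 : (m : ℤ) * e * N ≤ m * e * (n - cc + cA) :=
    mul_le_mul_of_nonneg_left hNc (by positivity)
  have e4 : (N : ℤ) * (m * e) ≤ N * (S + m * δ) := by
    calc (N : ℤ) * (m * e) = m * e * N := by ring
      _ ≤ m * e * (n - cc + cA) := e3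
      _ = m * (e * (n - cc)) + m * e * cA := by ring
      _ ≤ m * (N * δ) + N * S := add_le_add (e1.trans e2) hA
      _ = N * (S + m * δ) := by ring
  exact le_of_mul_le_mul_left e4 hN0

end Pool.Agent.W409.PG.REGLOG2

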